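import Pool.Agent.Helper95.PW.Stmts

set_option autoImplicit false

namespace Pool.Agent.Helper95.PW

open MeasureTheory Filter

namespace PAU

theorem cube_eq (c : R3) (l : ℝ) :
    cube c l = Set.pi Set.univ (fun i => Set.Ico (c i) (c i + l)) := by
  ext y
  simp [cube, Set.mem_pi]

theorem cube_meas (c : R3) (l : ℝ) : MeasurableSet (cube c l) := by
  rw [cube_eq]
  exact MeasurableSet.univ_pi fun i => measurableSet_Ico

theorem cube_fin (c : R3) (l : ℝ) : volume (cube c l) ≠ ⊤ := by
  rw [cube_eq, Real.volume_pi_Ico]
  exact ENNReal.prod_ne_top fun i _ => ENNReal.ofReal_ne_top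

theorem cube_vol (c : R3) (l : ℝ) (hl : 0 < l) : (volume (cube c l)).toReal = l ^ 3 := by
  rw [cube_eq, Real.volume_pi_Ico_toReal]
  · simp
  · intro i
    simp only
    linarith

theorem S_meas {n : ℕ} (k : Fin n) (c : R3) (l : ℝ) :
    MeasurableSet {x : Cf n | x k ∈ cube c l} :=
  (measurable_pi_apply k) (cube_meas c l)

/-- averaging in one variable -/
theorem avg {m : ℕ} (k : Fin (m + 1)) (c : R3) (l : ℝ) (hl : 0 < l) (F : Cf (m + 1) → ℝ)
    (hF : Integrable F) :
    ∫ x in {x : Cf (m + 1) | x k ∈ cube c l}, F x =
      ∫ x in {x : Cf (m + 1) | x k ∈ cube c l}, av k c l F x := by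
  classical
  have he : MeasurePreserving (MeasurableEquiv.piFinSuccAbove (fun _ : Fin (m + 1) => R3) k) :=
    volume_preserving_piFinSuccAbove (fun _ : Fin (m + 1) => R3) k
  have hes := he.symm
  have hap : ∀ (y : R3) (x' : Fin m → R3),
      (MeasurableEquiv.piFinSuccAbove (fun _ : Fin (m + 1) => R3) k).symm (y, x') =
        k.insertNth (α := fun _ => R3) y x' := fun y x' => rfl
  have hins : ∀ (y : R3) (x' : Fin m → R3),
      (k.insertNth (α := fun _ => R3) y x') k = y := fun y x' => Fin.insertNth_apply_same _ _ _
  have hupd : ∀ (y y' : R3) (x' : Fin m → R3),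
      Function.update (k.insertNth (α := fun _ => R3) y x') k y' =
        k.insertNth (α := fun _ => R3) y' x' := by
    intro y y' x'
    ext1 i
    rcases Fin.eq_self_or_eq_succAbove k i with rfl | ⟨j, rfl⟩
    · rw [Function.update_self, Fin.insertNth_apply_same]
    · rw [Function.update_of_ne (Fin.succAbove_ne _ _), Fin.insertNth_apply_succAbove,
        Fin.insertNth_apply_succAbove]
  rw [← integral_indicator (S_meas k c l), ← integral_indicator (S_meas k c l),
    ← hes.integral_comp', ← hes.integral_comp']
  have hint : Integrable (fun z : R3 × (Fin m → R3) =>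
      ({x : Cf (m + 1) | x k ∈ cube c l}.indicator F)
        ((MeasurableEquiv.piFinSuccAbove (fun _ : Fin (m + 1) => R3) k).symm z))
      (volume.prod volume) :=
    (hes.integrable_comp_emb (MeasurableEquiv.measurableEmbedding _)).mpr
      (hF.indicator (S_meas k c l))
  have e1 : (∫ z : R3 × (Fin m → R3),
      ({x : Cf (m + 1) | x k ∈ cube c l}.indicator F)
        ((MeasurableEquiv.piFinSuccAbove (fun _ : Fin (m + 1) => R3) k).symm z)) =
      ∫ x' : Fin m → R3, ∫ y in cube c l, F (k.insertNth (α := fun _ => R3) y x') := by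
    rw [Measure.volume_eq_prod, integral_prod_symm _ hint]
    congr 1
    ext1 x'
    rw [← integral_indicator (cube_meas c l)]
    congr 1
    ext1 y
    rw [hap]
    simp only [Set.indicator_apply, Set.mem_ofPred_eq, hins]
  have e2 : (∫ z : R3 × (Fin m → R3),
      ({x : Cf (m + 1) | x k ∈ cube c l}.indicator (av k c l F))
        ((MeasurableEquiv.piFinSuccAbove (fun _ : Fin (m + 1) => R3) k).symm z)) =
      (∫ y : R3, (cube c l).indicator (fun _ => (1 : ℝ)) y) *
        ∫ x' : Fin m → R3, (l ^ 3)⁻¹ * ∫ y in cube c l, F (k.insertNth (α := fun _ => R3) y x') := by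
    rw [Measure.volume_eq_prod, ← integral_prod_mul]
    congr 1
    ext1 ⟨y, x'⟩
    rw [hap]
    simp only [Set.indicator_apply, Set.mem_ofPred_eq, hins, av, hupd]
    split_ifs <;> simp
  rw [e1, e2, integral_indicator (cube_meas c l), integral_const_mul]
  have hl3 : l ^ 3 ≠ 0 := by positivity
  have hv : (∫ _y in cube c l, (1 : ℝ)) = l ^ 3 := by
    rw [setIntegral_const, smul_eq_mul, mul_one]
    exact cube_vol c l hl
  rw [hv, ← mul_assoc, mul_inv_cancel₀ hl3, one_mul]

variable {n : ℕ}

theorem av_upd (k : Fin n) (c : R3) (l : ℝ) (v : Cf n → ℝ) (x : Cf n) (y : R3) :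
    av k c l v (Function.update x k y) = av k c l v x := by
  simp only [av, Function.update_idem]

theorem cont_upd (k : Fin n) : Continuous (fun p : Cf n × R3 => Function.update p.1 k p.2) :=
  continuous_fst.update k continuous_snd

theorem av_cont (k : Fin n) (c : R3) (l : ℝ) (v : Cf n → ℝ) (hv : Continuous v) (M : ℝ)
    (hM : ∀ x, |v x| ≤ M) : Continuous (av k c l v) := by
  unfold av
  refine continuous_const.mul ?_
  have : IsFiniteMeasure (volume.restrict (cube c l)) :=
    ⟨by rw [Measure.restrict_apply_univ]; exact (cube_fin c l).lt_top⟩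
  refine continuous_of_dominated (bound := fun _ => M) ?_ ?_ (integrable_const M) ?_
  · intro x
    exact (hv.comp ((cont_upd k).comp (Continuous.prodMk_right x))).aestronglyMeasurable
  · intro x
    exact Eventually.of_forall fun y => hM _
  · exact Eventually.of_forall fun y => hv.comp ((cont_upd k).comp (Continuous.prodMk_left y))

theorem av_bd (k : Fin n) (c : R3) (l : ℝ) (hl : 0 < l) (v : Cf n → ℝ) (M : ℝ)
    (hM : ∀ x, |v x| ≤ M) (x : Cf n) : |av k c l v x| ≤ M := by
  unfold av
  have h1 : ‖∫ y in cube c l, v (Function.update x k y)‖ ≤ M * (volume (cube c l)).toReal :=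
    norm_setIntegral_le_of_norm_le_const (cube_fin c l).lt_top (fun y _ => hM _)
  rw [cube_vol c l hl, Real.norm_eq_abs] at h1
  rw [abs_mul, abs_of_pos (show 0 < (l ^ 3)⁻¹ by positivity)]
  calc (l ^ 3)⁻¹ * |∫ y in cube c l, v (Function.update x k y)| ≤ (l ^ 3)⁻¹ * (M * l ^ 3) := by
        gcongr
    _ = M := by
        have : l ^ 3 ≠ 0 := by positivity
        field_simp

theorem supp (k : Fin n) (c : R3) (l : ℝ) (hl : 0 < l) (v : Cf n → ℝ) (R : ℝ)
    (hR : ∀ x, R < ‖x‖ → v x = 0) (x : Cf n) (hx : max R (‖c‖ + l) < ‖x‖) (hR0 : 0 ≤ R) :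
    ({x : Cf n | x k ∈ cube c l}.indicator (av k c l v)) x = 0 := by
  by_cases hk : x ∈ {x : Cf n | x k ∈ cube c l}
  · rw [Set.indicator_of_mem hk]
    have hxk : ‖x k‖ ≤ ‖c‖ + l := by
      rw [pi_norm_le_iff_of_nonneg (by positivity)]
      intro i
      obtain ⟨h1, h2⟩ := hk i
      have h3 : |c i| ≤ ‖c‖ := norm_le_pi_norm c i
      rw [Real.norm_eq_abs, abs_le]
      rw [abs_le] at h3
      constructor <;> linarith
    have hex : ∃ j, j ≠ k ∧ R < ‖x j‖ := by
      by_contra hcon
      push Not at hcon
      have : ‖x‖ ≤ max R (‖c‖ + l) := by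
        rw [pi_norm_le_iff_of_nonneg (le_max_of_le_left hR0)]
        intro j
        by_cases hj : j = k
        · rw [hj]; exact le_max_of_le_right hxk
        · exact le_max_of_le_left (hcon j hj)
      linarith
    obtain ⟨j, hj, hjR⟩ := hex
    have hz : ∀ y : R3, v (Function.update x k y) = 0 := by
      intro y
      apply hR
      refine lt_of_lt_of_le hjR ?_
      have := norm_le_pi_norm (Function.update x k y) j
      rwa [Function.update_of_ne hj] at this
    simp only [av, hz, integral_zero, mul_zero]
  · rw [Set.indicator_of_notMem hk]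

theorem memLp_of (f : Cf n → ℝ) (hf : StronglyMeasurable f) (M R : ℝ) (hM : ∀ x, |f x| ≤ M)
    (hR : ∀ x, R < ‖x‖ → f x = 0) (p : ENNReal) : MemLp f p := by
  have h1 : f = (Metric.closedBall (0 : Cf n) R).indicator f := by
    ext x
    by_cases hx : x ∈ Metric.closedBall (0 : Cf n) R
    · rw [Set.indicator_of_mem hx]
    · rw [Set.indicator_of_notMem hx]
      apply hR
      rw [mem_closedBall_zero_iff] at hx
      linarith
  rw [h1, memLp_indicator_iff_restrict Metric.isClosed_closedBall.measurableSet]
  have : IsFiniteMeasure (volume.restrict (Metric.closedBall (0 : Cf n) R)) :=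
    ⟨by rw [Measure.restrict_apply_univ]; exact measure_closedBall_lt_top⟩
  exact MemLp.of_bound hf.aestronglyMeasurable M (Eventually.of_forall hM)

/-- the double average vanishes -/
theorem zero {u : Wf n} (hu : Anti u) (s : Fin n → Fin 2) (k j : Fin n) (hkj : k ≠ j)
    (hs : s k = s j) (hc : Continuous (u s)) (M : ℝ) (hM : ∀ x, |u s x| ≤ M) (c : R3) (l : ℝ)
    (x : Cf n) : ∫ y in cube c l, av j c l (u s) (Function.update x k y) = 0 := by
  unfold av
  rw [integral_const_mul]
  have : IsFiniteMeasure (volume.restrict (cube c l)) :=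
    ⟨by rw [Measure.restrict_apply_univ]; exact (cube_fin c l).lt_top⟩
  obtain ⟨g, hg⟩ : ∃ g : R3 → R3 → ℝ, ∀ y z, g y z =
      u s (Function.update (Function.update x k y) j z) := ⟨_, fun _ _ => rfl⟩
  have hanti : ∀ y z, g z y = - g y z := by
    intro y z
    have h1 := hu (Equiv.swap k j) s (Function.update (Function.update x k y) j z)
    have h2 : (fun i => s (Equiv.swap k j i)) = s := by
      ext1 i
      by_cases h : i = k
      · rw [h, Equiv.swap_apply_left, hs]
      · by_cases h' : i = j
        · rw [h', Equiv.swap_apply_right, hs]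
        · rw [Equiv.swap_apply_of_ne_of_ne h h']
    have h3 : (fun i => (Function.update (Function.update x k y) j z) (Equiv.swap k j i)) =
        Function.update (Function.update x k z) j y := by
      ext1 i
      by_cases h : i = k
      · rw [h, Equiv.swap_apply_left, Function.update_self, Function.update_of_ne hkj,
          Function.update_self]
      · by_cases h' : i = j
        · rw [h', Equiv.swap_apply_right, Function.update_self, Function.update_of_ne hkj,
            Function.update_self]
        · rw [Equiv.swap_apply_of_ne_of_ne h h', Function.update_of_ne h', Function.update_of_ne h,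
            Function.update_of_ne h', Function.update_of_ne h]
    rw [h2, h3, Equiv.Perm.sign_swap hkj, ← hg, ← hg] at h1
    rw [h1]
    simp
  have hgc : Continuous (Function.uncurry g) := by
    have h1 : Continuous (fun p : R3 × R3 =>
        Function.update (Function.update x k p.1) j p.2) := by
      have h01 : Continuous (fun p : R3 × R3 => Function.update x k p.1) :=
        (continuous_const (y := x)).update k continuous_fst
      exact h01.update j continuous_snd
    have h2 : Function.uncurry g = fun p : R3 × R3 =>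
        u s (Function.update (Function.update x k p.1) j p.2) := by
      ext p
      exact hg p.1 p.2
    rw [h2]
    exact hc.comp h1
  have hgi : Integrable (Function.uncurry g)
      ((volume.restrict (cube c l)).prod (volume.restrict (cube c l))) := by
    refine Integrable.of_bound hgc.aestronglyMeasurable M (Eventually.of_forall fun p => ?_)
    have : Function.uncurry g p = u s (Function.update (Function.update x k p.1) j p.2) :=
      hg p.1 p.2
    rw [this]
    exact hM _
  have hI : ∫ y in cube c l, ∫ z in cube c l, g y z = 0 := by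
    have h1 := integral_integral_swap hgi
    have h2 : ∫ z in cube c l, ∫ y in cube c l, g y z =
        - ∫ z in cube c l, ∫ y in cube c l, g z y := by
      rw [← integral_neg]
      congr 1
      ext1 z
      rw [← integral_neg]
      congr 1
      ext1 y
      exact hanti z y
    linarith
  have hI' : ∫ y in cube c l, ∫ z in cube c l,
      u s (Function.update (Function.update x k y) j z) = 0 := by
    rw [← hI]
    congr 1
    ext1 y
    congr 1
    ext1 z
    exact (hg y z).symm
  rw [hI', mul_zero]

/-- one spin configuration, the electrons with spin `t` -/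
theorem main {m : ℕ} {u : Wf (m + 1)} (hu : Anti u) (s : Fin (m + 1) → Fin 2) (t : Fin 2)
    (hc : Continuous (u s)) (hcs : HasCompactSupport (u s)) (c : R3) (l : ℝ) (hl : 0 < l) :
    ∑ k ∈ Finset.univ.filter (fun k => s k = t),
      ∫ x in {x : Cf (m + 1) | x k ∈ cube c l}, av k c l (u s) x ^ 2 ≤ ∫ x, u s x ^ 2 := by
  classical
  obtain ⟨M, hM⟩ := hcs.exists_bound_of_continuous hc
  obtain ⟨R0, hR0⟩ := hcs.isCompact.isBounded.subset_closedBall (0 : Cf (m + 1))
  obtain ⟨R, hR⟩ : ∃ R : ℝ, R = max R0 0 := ⟨_, rfl⟩
  have hRpos : 0 ≤ R := by rw [hR]; exact le_max_right _ _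
  have hRz : ∀ x, R < ‖x‖ → u s x = 0 := by
    intro x hx
    apply image_eq_zero_of_notMem_tsupport
    intro h
    have h2 := hR0 h
    rw [mem_closedBall_zero_iff] at h2
    have : R0 ≤ R := by rw [hR]; exact le_max_left _ _
    linarith
  have hM' : ∀ x, |u s x| ≤ M := hM
  have hM0 : 0 ≤ M := (abs_nonneg _).trans (hM' 0)
  obtain ⟨b, hb⟩ : ∃ b : Fin (m + 1) → Cf (m + 1) → ℝ, ∀ k, b k =
      {x : Cf (m + 1) | x k ∈ cube c l}.indicator (av k c l (u s)) := ⟨_, fun _ => rfl⟩
  have hbm : ∀ k, StronglyMeasurable (b k) := by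
    intro k
    rw [hb]
    exact (av_cont k c l (u s) hc M hM').stronglyMeasurable.indicator (S_meas k c l)
  have hbb : ∀ k x, |b k x| ≤ M := by
    intro k x
    rw [hb]
    by_cases hx : x ∈ {x : Cf (m + 1) | x k ∈ cube c l}
    · rw [Set.indicator_of_mem hx]
      exact av_bd k c l hl (u s) M hM' x
    · rw [Set.indicator_of_notMem hx, abs_zero]; exact hM0
  have hbs : ∀ k x, max R (‖c‖ + l) < ‖x‖ → b k x = 0 := by
    intro k x hx
    rw [hb]
    exact supp k c l hl (u s) R hRz x hx hRpos
  have hbL : ∀ k, MemLp (b k) 2 := fun k =>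
    memLp_of (b k) (hbm k) M _ (hbb k) (hbs k) 2
  have huL : MemLp (u s) 2 := memLp_of (u s) hc.stronglyMeasurable M R hM' hRz 2
  -- the product with `u`
  have h1 : ∀ k, ∫ x, u s x * b k x = ∫ x, b k x * b k x := by
    intro k
    have e1 : (fun x => u s x * b k x) =
        {x : Cf (m + 1) | x k ∈ cube c l}.indicator (fun x => u s x * av k c l (u s) x) := by
      ext1 x
      rw [hb]
      simp only [Set.indicator_apply]
      split_ifs <;> simp
    have e2 : (fun x => b k x * b k x) =
        {x : Cf (m + 1) | x k ∈ cube c l}.indicator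
          (fun x => av k c l (u s) x * av k c l (u s) x) := by
      ext1 x
      rw [hb]
      simp only [Set.indicator_apply]
      split_ifs <;> simp
    rw [e1, e2, integral_indicator (S_meas k c l), integral_indicator (S_meas k c l)]
    have hF : Integrable (fun x => u s x * av k c l (u s) x) := by
      rw [← memLp_one_iff_integrable]
      refine memLp_of (fun x => u s x * av k c l (u s) x) (hc.mul (av_cont k c l (u s) hc M hM')).stronglyMeasurable (M * M) R ?_ ?_ 1
      · intro x
        rw [abs_mul]
        exact mul_le_mul (hM' x) (av_bd k c l hl (u s) M hM' x) (abs_nonneg _) hM0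
      · intro x hx
        rw [hRz x hx, zero_mul]
    rw [avg k c l hl _ hF]
    congr 1
    ext1 x
    simp only [av]
    simp only [Function.update_idem]
    rw [integral_mul_const]
    ring
  -- orthogonality
  have h2 : ∀ k j, s k = t → s j = t → k ≠ j → ∫ x, b k x * b j x = 0 := by
    intro k j hk hj hkj
    have e1 : (fun x => b k x * b j x) =
        {x : Cf (m + 1) | x k ∈ cube c l}.indicator (fun x => b j x * av k c l (u s) x) := by
      ext1 x
      rw [hb k]
      simp only [Set.indicator_apply]
      split_ifs <;> ring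
    rw [e1, integral_indicator (S_meas k c l)]
    have hF : Integrable (fun x => b j x * av k c l (u s) x) := by
      rw [← memLp_one_iff_integrable]
      refine memLp_of (fun x => b j x * av k c l (u s) x)
        ((hbm j).mul (av_cont k c l (u s) hc M hM').stronglyMeasurable) (M * M)
        (max R (‖c‖ + l)) ?_ ?_ 1
      · intro x
        rw [abs_mul]
        exact mul_le_mul (hbb j x) (av_bd k c l hl (u s) M hM' x) (abs_nonneg _) hM0
      · intro x hx
        rw [hbs j x hx, zero_mul]
    rw [avg k c l hl _ hF]
    have hz : ∀ x, av k c l (fun x => b j x * av k c l (u s) x) x = 0 := by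
      intro x
      have e3 : ∀ y, b j (Function.update x k y) * av k c l (u s) (Function.update x k y) =
          (if x j ∈ cube c l then av k c l (u s) x else 0) *
            av j c l (u s) (Function.update x k y) := by
        intro y
        rw [av_upd, hb]
        simp only [Set.indicator_apply, Set.mem_ofPred_eq, Function.update_of_ne (Ne.symm hkj)]
        split_ifs <;> ring
      have e4 : av k c l (fun x => b j x * av k c l (u s) x) x = (l ^ 3)⁻¹ *
          ∫ y in cube c l, (if x j ∈ cube c l then av k c l (u s) x else 0) *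
            av j c l (u s) (Function.update x k y) := by
        change (l ^ 3)⁻¹ * ∫ y in cube c l, b j (Function.update x k y) *
          av k c l (u s) (Function.update x k y) = _
        congr 1
        congr 1
        ext1 y
        exact e3 y
      rw [e4, integral_const_mul, zero hu s k j hkj (hk.trans hj.symm) hc M hM' c l x]
      simp
    simp only [hz, integral_zero]
  -- the square
  obtain ⟨A, hA⟩ : ∃ A : Finset (Fin (m + 1)), A = Finset.univ.filter (fun k => s k = t) :=
    ⟨_, rfl⟩
  rw [← hA]
  have hAt : ∀ k ∈ A, s k = t := by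
    intro k hk
    rw [hA] at hk
    exact (Finset.mem_filter.mp hk).2
  have i1 : Integrable (fun x => u s x * u s x) := huL.integrable_mul huL
  have i2 : ∀ k, Integrable (fun x => u s x * b k x) := fun k => huL.integrable_mul (hbL k)
  have i3 : ∀ k j, Integrable (fun x => b k x * b j x) := fun k j =>
    (hbL k).integrable_mul (hbL j)
  have hsq : ∫ x, (u s x - ∑ k ∈ A, b k x) ^ 2 = (∫ x, u s x * u s x) -
      2 * (∑ k ∈ A, ∫ x, u s x * b k x) + ∑ k ∈ A, ∑ j ∈ A, ∫ x, b k x * b j x := by
    have e : (fun x => (u s x - ∑ k ∈ A, b k x) ^ 2) = fun x =>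
        (u s x * u s x - 2 * (∑ k ∈ A, u s x * b k x)) + ∑ k ∈ A, ∑ j ∈ A, b k x * b j x := by
      ext1 x
      rw [← Finset.mul_sum, ← Finset.sum_mul_sum]
      ring
    rw [e, integral_add, integral_sub, integral_const_mul, integral_finsetSum _ (fun k _ => i2 k),
      integral_finsetSum]
    · congr 1
      refine Finset.sum_congr rfl fun k _ => ?_
      rw [integral_finsetSum _ (fun j _ => i3 k j)]
    · intro k _
      exact integrable_finsetSum _ (fun j _ => i3 k j)
    · exact i1
    · exact (integrable_finsetSum _ (fun k _ => i2 k)).const_mul 2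
    · exact i1.sub ((integrable_finsetSum _ (fun k _ => i2 k)).const_mul 2)
    · exact integrable_finsetSum _ (fun k _ => integrable_finsetSum _ (fun j _ => i3 k j))
  have hpos : 0 ≤ ∫ x, (u s x - ∑ k ∈ A, b k x) ^ 2 := integral_nonneg fun x => sq_nonneg _
  have hdiag : ∑ k ∈ A, ∑ j ∈ A, ∫ x, b k x * b j x = ∑ k ∈ A, ∫ x, b k x * b k x := by
    refine Finset.sum_congr rfl fun k hk => ?_
    rw [Finset.sum_eq_single k]
    · intro j hj hjk
      exact h2 k j (hAt k hk) (hAt j hj) (Ne.symm hjk)
    · intro h; exact absurd hk h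
  have hub : ∑ k ∈ A, ∫ x, u s x * b k x = ∑ k ∈ A, ∫ x, b k x * b k x :=
    Finset.sum_congr rfl fun k _ => h1 k
  rw [hsq, hdiag, hub] at hpos
  have hgoal : ∑ k ∈ A, ∫ x in {x : Cf (m + 1) | x k ∈ cube c l}, av k c l (u s) x ^ 2 =
      ∑ k ∈ A, ∫ x, b k x * b k x := by
    refine Finset.sum_congr rfl fun k _ => ?_
    rw [← integral_indicator (S_meas k c l)]
    congr 1
    ext1 x
    rw [hb]
    simp only [Set.indicator_apply]
    split_ifs
    · ring
    · ring
  have hu2 : ∫ x, u s x ^ 2 = ∫ x, u s x * u s x := by
    congr 1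
    ext1 x
    ring
  rw [hgoal, hu2]
  linarith

end PAU

theorem st_PAU : ST_PAU := by
  intro n u c l hS hA hl
  rcases n with _ | m
  · have h0 : 0 ≤ sq u := Finset.sum_nonneg fun s _ => integral_nonneg fun x => sq_nonneg _
    rw [Finset.univ_eq_empty, Finset.sum_empty]
    positivity
  · rw [Finset.sum_comm]
    unfold sq
    rw [Finset.mul_sum]
    refine Finset.sum_le_sum fun s _ => ?_
    have h1 := PAU.main hA s 0 (hS s).1.continuous (hS s).2 c l hl
    have h2 := PAU.main hA s 1 (hS s).1.continuous (hS s).2 c l hl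
    have h3 : ∑ k, ∫ x in {x : Cf (m + 1) | x k ∈ cube c l}, av k c l (u s) x ^ 2 =
        (∑ k ∈ Finset.univ.filter (fun k => s k = 0),
          ∫ x in {x : Cf (m + 1) | x k ∈ cube c l}, av k c l (u s) x ^ 2) +
        ∑ k ∈ Finset.univ.filter (fun k => s k = 1),
          ∫ x in {x : Cf (m + 1) | x k ∈ cube c l}, av k c l (u s) x ^ 2 := by
      rw [← Finset.sum_filter_add_sum_filter_not Finset.univ (fun k => s k = 0)]
      congr 1
      refine Finset.sum_congr ?_ fun _ _ => rfl
      ext k
      simp only [Finset.mem_filter, Finset.mem_univ, true_and]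
      constructor
      · intro h
        have := Fin.eq_one_of_ne_zero (s k) h
        exact this
      · intro h
        rw [h]; decide
    rw [h3]
    linarith

end Pool.Agent.Helper95.PW
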